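import Pool.Agent.W683.CT.Code

set_option autoImplicit false

namespace Pool.Agent.W683.CT

open Pool.Agent.W317.CT

theorem cay : S_CAY := by
  intro H _ S hS hcl
  obtain ⟨k, f, -, hf⟩ := hS.fin_param
  set p : FreeGroup (Fin k) →* H := FreeGroup.lift f with hp
  have hpof : ∀ i, p (FreeGroup.of i) = f i := fun i => by rw [hp, FreeGroup.lift_apply_of]
  have hsurj : Function.Surjective p := by
    rw [← MonoidHom.range_eq_top, hp, FreeGroup.range_lift_eq_closure, hf, hcl]
  refine ⟨k, p, hsurj, ?_⟩
  set Γ := SimpleGraph.fromRel (fun g h : H => ∃ s ∈ S, h = g * s) with hΓ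
  have hup : ∀ {g h : H} (w : Γ.Walk g h), wl p (g⁻¹ * h) ≤ w.length := by
    intro g h w
    induction w with
    | nil =>
      refine (wl_le p 1 (by simp)).trans ?_
      simp
    | cons hadj q ih =>
      rename_i u1 u2 u3
      have e : u1⁻¹ * u3 = (u1⁻¹ * u2) * (u2⁻¹ * u3) := by group
      have h1 : wl p (u1⁻¹ * u2) ≤ 1 := by
        rw [hΓ, SimpleGraph.fromRel_adj] at hadj
        obtain ⟨-, ⟨s, hs, h⟩ | ⟨s, hs, h⟩⟩ := hadj
        · rw [← hf] at hs
          obtain ⟨i, rfl⟩ := hs
          refine (wl_le p (FreeGroup.of i) (by rw [hpof, h]; group)).trans ?_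
          rw [FreeGroup.norm_of]
        · rw [← hf] at hs
          obtain ⟨i, rfl⟩ := hs
          refine (wl_le p (FreeGroup.of i)⁻¹ (by rw [map_inv, hpof, h]; group)).trans ?_
          rw [FreeGroup.norm_inv_eq, FreeGroup.norm_of]
      rw [e, SimpleGraph.Walk.length_cons]
      have := wl_mul p hsurj (u1⁻¹ * u2) (u2⁻¹ * u3)
      omega
  have hone : ∀ (g : H) (i : Fin k) (c : Bool), g = g * p (FreeGroup.mk [(i, c)]) ∨
      Γ.Adj g (g * p (FreeGroup.mk [(i, c)])) := by
    intro g i c
    by_cases hg : g = g * p (FreeGroup.mk [(i, c)])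
    · exact Or.inl hg
    · right
      rw [hΓ, SimpleGraph.fromRel_adj]
      refine ⟨hg, ?_⟩
      cases c with
      | true =>
        left
        refine ⟨f i, by rw [← hf]; exact ⟨i, rfl⟩, ?_⟩
        rw [← hpof i]
        rfl
      | false =>
        right
        refine ⟨f i, by rw [← hf]; exact ⟨i, rfl⟩, ?_⟩
        have e : FreeGroup.mk [(i, false)] = (FreeGroup.of i)⁻¹ := by
          rw [FreeGroup.of, FreeGroup.inv_mk]
          rfl
        rw [e, map_inv, hpof]
        group
  have hlow : ∀ (L : List (Fin k × Bool)) (g h : H), h = g * p (FreeGroup.mk L) →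
      ∃ w : Γ.Walk g h, w.length ≤ L.length := by
    intro L
    induction L with
    | nil =>
      intro g h hh
      have : h = g := by
        rw [hh, ← FreeGroup.one_eq_mk, map_one, mul_one]
      subst this
      exact ⟨SimpleGraph.Walk.nil, by simp⟩
    | cons a L ih =>
      intro g h hh
      obtain ⟨i, c⟩ := a
      have e : FreeGroup.mk ((i, c) :: L) = FreeGroup.mk [(i, c)] * FreeGroup.mk L := by
        rw [FreeGroup.mul_mk]
        rfl
      obtain ⟨w, hw⟩ := ih (g * p (FreeGroup.mk [(i, c)])) h (by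
        rw [hh, e, map_mul, mul_assoc])
      rcases hone g i c with h1 | h1
      · refine ⟨w.copy h1.symm rfl, ?_⟩
        rw [SimpleGraph.Walk.length_copy, List.length_cons]
        omega
      · refine ⟨SimpleGraph.Walk.cons h1 w, ?_⟩
        rw [SimpleGraph.Walk.length_cons, List.length_cons]
        omega
  intro g h
  obtain ⟨u, hu, hu'⟩ := wl_ex p hsurj (g⁻¹ * h)
  obtain ⟨w, hw⟩ := hlow u.toWord g h (by
    rw [FreeGroup.mk_toWord, hu']; group)
  apply le_antisymm
  · rw [← hu]
    exact (SimpleGraph.dist_le w).trans hw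
  · obtain ⟨w', hw'⟩ := SimpleGraph.Reachable.exists_walk_length_eq_dist (⟨w⟩ : Γ.Reachable g h)
    rw [← hw']
    exact hup w'

end Pool.Agent.W683.CT
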