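import Pool.Agent.W317.CT.Stm

set_option autoImplicit false

namespace Pool.Agent.W683.CT

open Pool.Agent.W317.CT

section wl
variable {H : Type} [Group H] {k : ℕ} (p : FreeGroup (Fin k) →* H)

theorem wl_le {g : H} (w : FreeGroup (Fin k)) (h : p w = g) : wl p g ≤ w.norm :=
  Nat.sInf_le ⟨w, rfl, h⟩

theorem wl_ex (hp : Function.Surjective p) (g : H) :
    ∃ w : FreeGroup (Fin k), w.norm = wl p g ∧ p w = g := by
  obtain ⟨w, hw⟩ := hp g
  exact Nat.sInf_mem (s := {n | ∃ w : FreeGroup (Fin k), w.norm = n ∧ p w = g}) ⟨_, w, rfl, hw⟩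

theorem wl_mul (hp : Function.Surjective p) (g h : H) : wl p (g * h) ≤ wl p g + wl p h := by
  obtain ⟨u, hu, hu'⟩ := wl_ex p hp g
  obtain ⟨v, hv, hv'⟩ := wl_ex p hp h
  rw [← hu, ← hv]
  exact (wl_le p (u * v) (by rw [map_mul, hu', hv'])).trans (FreeGroup.norm_mul_le _ _)

theorem wl_inv_le (hp : Function.Surjective p) (g : H) : wl p g⁻¹ ≤ wl p g := by
  obtain ⟨u, hu, hu'⟩ := wl_ex p hp g
  rw [← hu]
  refine (wl_le p u⁻¹ (by rw [map_inv, hu'])).trans ?_
  rw [FreeGroup.norm_inv_eq]

theorem wl_inv (hp : Function.Surjective p) (g : H) : wl p g⁻¹ = wl p g := by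
  apply le_antisymm (wl_inv_le p hp g)
  have := wl_inv_le p hp g⁻¹
  rwa [inv_inv] at this

theorem wl_comm (hp : Function.Surjective p) (g h : H) : wl p (g⁻¹ * h) = wl p (h⁻¹ * g) := by
  rw [← wl_inv p hp, mul_inv_rev, inv_inv]

theorem wl_tri (hp : Function.Surjective p) (g h l : H) :
    (wl p (g⁻¹ * l) : ℝ) ≤ wl p (g⁻¹ * h) + wl p (h⁻¹ * l) := by
  have e : g⁻¹ * l = (g⁻¹ * h) * (h⁻¹ * l) := by group
  rw [e]
  exact_mod_cast wl_mul p hp _ _

end wl

theorem code : S_CODE := by
  intro b b' H H' _ _ k p p' hp hp' hker F F' K C K' C' hK hK' hF hF' hs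
  have hpp : ∀ w : FreeGroup (Fin k), wl p (p w) = wl p' (p' w) := by
    intro w
    unfold wl
    congr 1
    ext n
    have : ∀ v : FreeGroup (Fin k), p v = p w ↔ p' v = p' w := by
      intro v
      have h1 : v⁻¹ * w ∈ p.ker ↔ p v = p w := by
        rw [MonoidHom.mem_ker, map_mul, map_inv, inv_mul_eq_one]
      have h2 : v⁻¹ * w ∈ p'.ker ↔ p' v = p' w := by
        rw [MonoidHom.mem_ker, map_mul, map_inv, inv_mul_eq_one]
      rw [← h1, ← h2, hker]
    constructor
    · rintro ⟨v, hv, h⟩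
      exact ⟨v, hv, (this v).1 h⟩
    · rintro ⟨v, hv, h⟩
      exact ⟨v, hv, (this v).2 h⟩
  choose ps hps using hs
  choose W hW using fun g => hp (F g)
  have hC' : 0 ≤ C' := le_trans (Nat.cast_nonneg _) (hps 1)
  refine ⟨fun g => ps (p' (W g)), K * K', (|C| + 3 * C') * (K' + 1 / K'), by positivity, ?_⟩
  intro g h
  have e1 : wl p' ((p' (W g))⁻¹ * p' (W h)) = wl p ((F g)⁻¹ * F h) := by
    rw [← map_inv, ← map_mul, ← hpp, map_mul, map_inv, hW, hW]
  have a1 := hps (p' (W g))
  have a2 := hps (p' (W h))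
  set x := F' (ps (p' (W g))) with hx
  set y := F' (ps (p' (W h))) with hy
  have t1 := wl_tri p' hp' x (p' (W g)) y
  have t2 := wl_tri p' hp' (p' (W g)) (p' (W h)) y
  have t3 := wl_comm p' hp' (p' (W h)) y
  have s1 := wl_tri p' hp' (p' (W g)) x (p' (W h))
  have s2 := wl_tri p' hp' x y (p' (W h))
  have s3 := wl_comm p' hp' (p' (W g)) x
  rw [e1] at t2 s1
  rw [t3] at t2
  rw [s3] at s1
  have b1 := hF g h
  have b2 := hF' (ps (p' (W g))) (ps (p' (W h)))
  rw [← hx, ← hy] at b2
  set D := d b g h with hD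
  set D' := d b' (ps (p' (W g))) (ps (p' (W h))) with hD'
  have hCa := le_abs_self C
  have u1 : D' ≤ K' * (K * D + |C| + 3 * C') := by
    have h1 : D' / K' ≤ K * D + |C| + 3 * C' := by
      have := b2.1
      have := b1.2
      linarith
    rwa [div_le_iff₀' hK'] at h1
  have u2 : D / K - |C| - 3 * C' ≤ K' * D' := by
    have := b2.2
    have := b1.1
    linarith
  have hq : 0 < 1 / K' := by positivity
  have hr : 0 ≤ |C| + 3 * C' := by positivity
  constructor
  · have h3 : (D / K - |C| - 3 * C') / K' ≤ D' := by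
      rw [div_le_iff₀' hK']; exact u2
    have h4 : (D / K - |C| - 3 * C') / K' = D / (K * K') - (|C| + 3 * C') * (1 / K') := by
      field_simp
      ring
    have h5 : (|C| + 3 * C') * (K' + 1 / K') = (|C| + 3 * C') * K' + (|C| + 3 * C') * (1 / K') := by
      ring
    have h6 : 0 ≤ (|C| + 3 * C') * K' := by positivity
    linarith
  · have h5 : (|C| + 3 * C') * (K' + 1 / K') = (|C| + 3 * C') * K' + (|C| + 3 * C') * (1 / K') := by
      ring
    have h6 : 0 ≤ (|C| + 3 * C') * (1 / K') := by positivity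
    have h7 : K' * (K * D + |C| + 3 * C') = K * K' * D + (|C| + 3 * C') * K' := by ring
    linarith

theorem comp (hN : S_NET) : S_COMP := by
  intro b C₀ hC H _ k p hp φ K C hK hφ hs
  obtain ⟨hC0, hc⟩ := hC
  have hC : 0 ≤ C := by
    obtain ⟨a, ha⟩ := hs 1
    exact le_trans (Nat.cast_nonneg _) ha
  choose v hv using hN b
  have q0 : 0 < 2 / (3 * K) := by positivity
  have q1 : 0 < K * C₀ := by positivity
  refine ⟨fun g => φ (v g), 3 * K + K * C₀, 3 * (K * C₀) + 2 * C + 2 / (3 * K), by positivity,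
    ?_, ?_⟩
  · intro g h
    have t1 := d_tri b (iota (v g)) g (iota (v h))
    have t2 := d_tri b g h (iota (v h))
    have t3 := d_comm b h (iota (v h))
    have t4 := d_tri b g (iota (v g)) h
    have t5 := d_tri b (iota (v g)) (iota (v h)) h
    have t6 := d_comm b g (iota (v g))
    have h1 := hv g
    have h2 := hv h
    have c1 := (hc (v g) (v h)).1
    have c2 := (hc (v g) (v h)).2
    have f1 := (hφ (v g) (v h)).1
    have f2 := (hφ (v g) (v h)).2
    have hd := d_nonneg b g h
    constructor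
    · have e1 : (d b g h - 2) / 3 ≤ ((X b).dist (v g) (v h) : ℝ) := by
        rw [div_le_iff₀ (by norm_num)]
        linarith
      have e2 : (d b g h - 2) / 3 / K ≤ ((X b).dist (v g) (v h) : ℝ) / K := by
        gcongr
      have e3 : (d b g h - 2) / 3 / K = d b g h / (3 * K) - 2 / (3 * K) := by
        field_simp
      have e4 : d b g h / (3 * K + K * C₀) ≤ d b g h / (3 * K) := by
        apply div_le_div_of_nonneg_left hd (by positivity)
        linarith
      simp only
      linarith
    · have e1 : ((X b).dist (v g) (v h) : ℝ) ≤ C₀ * (d b g h + 3) := by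
        refine c2.trans ?_
        apply mul_le_mul_of_nonneg_left _ hC0.le
        linarith
      have e2 : K * ((X b).dist (v g) (v h) : ℝ) ≤ K * (C₀ * (d b g h + 3)) :=
        mul_le_mul_of_nonneg_left e1 hK.le
      have e3 : 0 ≤ 3 * K * d b g h := by positivity
      have e4 : K * (C₀ * (d b g h + 3)) = K * C₀ * d b g h + 3 * (K * C₀) := by ring
      have e5 : (3 * K + K * C₀) * d b g h = 3 * K * d b g h + K * C₀ * d b g h := by ring
      simp only
      linarith
  · intro h
    obtain ⟨a, ha⟩ := hs h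
    refine ⟨iota a, ?_⟩
    have h1 := hv (iota a)
    have c2 := (hc (v (iota a)) a).2
    have f2 := (hφ (v (iota a)) a).2
    have t := wl_tri p hp (φ (v (iota a))) (φ a) h
    have e1 : ((X b).dist (v (iota a)) a : ℝ) ≤ C₀ * 2 := by
      refine c2.trans ?_
      apply mul_le_mul_of_nonneg_left _ hC0.le
      linarith
    have e2 : K * ((X b).dist (v (iota a)) a : ℝ) ≤ K * (C₀ * 2) :=
      mul_le_mul_of_nonneg_left e1 hK.le
    simp only at f2
    simp only
    have e3 : K * (C₀ * 2) = 2 * (K * C₀) := by ring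
    linarith

end Pool.Agent.W683.CT
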