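import Pool.Agent.W317.CT.Stm

set_option autoImplicit false

namespace Pool.Agent.W683.CT

open Pool.Agent.W317.CT

/-- the box -/
noncomputable def box (n m : ℕ) : Finset V :=
  (Finset.Icc (fun _ => -(n : ℤ)) (fun _ => (n : ℤ)) : Finset (Fin 8 → ℤ)) ×ˢ
    (Finset.Icc (fun _ => -(m : ℤ)) (fun _ => (m : ℤ)) : Finset (Fin 2 → ℤ))

theorem box_mem (v : V) (n m : ℕ) (h1 : ‖(iota v).1‖ ≤ n) (h2 : ‖(iota v).2‖ ≤ m) :
    v ∈ box n m := by
  have a1 : ∀ i, |v.1 i| ≤ (n : ℤ) := by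
    intro i
    have h := (norm_le_pi_norm (iota v).1 i).trans h1
    have h' : ‖(iota v).1 i‖ = ((|v.1 i| : ℤ) : ℝ) := by
      simp [iota]
    rw [h'] at h
    exact_mod_cast h
  have a2 : ∀ i, |v.2 i| ≤ (m : ℤ) := by
    intro i
    have h := (norm_le_pi_norm (iota v).2 i).trans h2
    have h' : ‖(iota v).2 i‖ = ((|v.2 i| : ℤ) : ℝ) := by
      simp [iota]
    rw [h'] at h
    exact_mod_cast h
  rw [box, Finset.mem_product, Finset.mem_Icc, Finset.mem_Icc]
  exact ⟨⟨fun i => (abs_le.1 (a1 i)).1, fun i => (abs_le.1 (a1 i)).2⟩,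
    ⟨fun i => (abs_le.1 (a2 i)).1, fun i => (abs_le.1 (a2 i)).2⟩⟩

theorem box_card (n m : ℕ) :
    (box n m).card = (2 * n + 1) ^ 8 * (2 * m + 1) ^ 2 := by
  rw [box, Finset.card_product, Pi.card_Icc, Pi.card_Icc]
  simp only [Int.card_Icc, Finset.prod_const, Finset.card_univ, Fintype.card_fin]
  congr 2
  · omega
  · omega

theorem grow : S_GROW := by
  intro b
  constructor
  · intro v
    set R : ℝ := ‖(iota v).1‖ with hR
    obtain ⟨n, hn⟩ := exists_nat_ge (R + 3)
    obtain ⟨m, hm⟩ := exists_nat_ge (9 + ‖(iota v).2‖ + 2 * R * (R + 3))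
    apply Set.Finite.subset (Finset.finite_toSet (box n m))
    intro w hw
    have hd : d b (iota v) (iota w) ≤ 3 := ((SimpleGraph.mem_neighborSet _ _ _).1 hw).2.1
    rw [d_eq] at hd
    have h1 : ‖(iota w).1 - (iota v).1‖ ≤ 3 := (le_max_left _ _).trans hd
    have h2 : ‖(iota w).2 - (iota v).2 - b.B (iota v).1 (iota w).1‖ ≤ 9 := by
      have h3 := (le_max_right _ _).trans hd
      rw [Real.sqrt_le_left (by norm_num)] at h3
      linarith
    have h4 : ‖(iota w).1‖ ≤ R + 3 := by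
      have e : (iota w).1 = (iota v).1 + ((iota w).1 - (iota v).1) := by abel
      rw [e]
      exact (norm_add_le _ _).trans (add_le_add le_rfl h1)
    have h5 : ‖(iota w).2‖ ≤ 9 + ‖(iota v).2‖ + 2 * R * (R + 3) := by
      have e : (iota w).2 = ((iota w).2 - (iota v).2 - b.B (iota v).1 (iota w).1) + (iota v).2
          + b.B (iota v).1 (iota w).1 := by abel
      rw [e]
      refine (norm_add_le _ _).trans (add_le_add ((norm_add_le _ _).trans
        (add_le_add h2 le_rfl)) ?_)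
      refine (b.bd _ _).trans ?_
      exact mul_le_mul_of_nonneg_left h4 (by positivity)
    exact Finset.mem_coe.2 (box_mem w n m (h4.trans hn) (h5.trans hm))
  · intro h
    refine ⟨0, 6 ^ 8 * 18 ^ 2, 12, fun r => ?_⟩
    have hsub : {w | (X b).dist 0 w ≤ r} ⊆ ((box (3 * r) (9 * r ^ 2) : Finset V) : Set V) := by
      intro w hw
      have h1 := h 0 w
      have h2 : iota 0 = 0 := by
        simp only [iota]
        ext <;> simp
      rw [h2, d_zero_left] at h1
      have h3 : ((X b).dist 0 w : ℝ) ≤ r := by exact_mod_cast hw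
      have h4 : N (iota w) ≤ 3 * (r : ℝ) := by linarith
      refine Finset.mem_coe.2 (box_mem w _ _ ?_ ?_)
      · push_cast
        exact (norm_fst_le_N _).trans h4
      · push_cast
        refine (norm_snd_le_N _).trans ?_
        calc N (iota w) ^ 2 ≤ (3 * (r : ℝ)) ^ 2 := pow_le_pow_left₀ (N_nonneg _) h4 2
          _ = 9 * (r : ℝ) ^ 2 := by ring
    have hc := Set.ncard_le_ncard hsub (Finset.finite_toSet _)
    rw [Set.ncard_coe_finset, box_card] at hc
    refine hc.trans ?_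
    have e1 : 2 * (3 * r) + 1 ≤ 6 * (r + 1) := by omega
    have e2 : 2 * (9 * r ^ 2) + 1 ≤ 18 * (r + 1) ^ 2 := by nlinarith
    calc (2 * (3 * r) + 1) ^ 8 * (2 * (9 * r ^ 2) + 1) ^ 2
        ≤ (6 * (r + 1)) ^ 8 * (18 * (r + 1) ^ 2) ^ 2 :=
          Nat.mul_le_mul (Nat.pow_le_pow_left e1 8) (Nat.pow_le_pow_left e2 2)
      _ = 6 ^ 8 * 18 ^ 2 * (r + 1) ^ 12 := by ring

end Pool.Agent.W683.CT
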