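import Pool.Agent.W317.CT.Stm

set_option autoImplicit false

namespace Pool.Agent.W683.CT

open Pool.Agent.W317.CT

theorem trans (hN : S_NET) : S_TRANS := by
  intro b C₀ hC
  obtain ⟨hC0, hc⟩ := hC
  refine ⟨3 * C₀ + 3, 3 * C₀ + 1, by linarith, ?_⟩
  intro x y
  have hf : ∀ a : V, ∃ v : V,
      d b (iota v) (mul b (iota y) (mul b (inv (iota x)) (iota a))) ≤ 1 := fun a => hN b _
  choose f hf using hf
  have hiso : ∀ a a' : V, d b (mul b (iota y) (mul b (inv (iota x)) (iota a)))
      (mul b (iota y) (mul b (inv (iota x)) (iota a'))) = d b (iota a) (iota a') := by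
    intro a a'
    rw [d_mul_left, d_mul_left]
  have h1 : ∀ a a' : V, d b (iota (f a)) (iota (f a')) ≤ d b (iota a) (iota a') + 2 := by
    intro a a'
    have t1 := d_tri b (iota (f a)) (mul b (iota y) (mul b (inv (iota x)) (iota a))) (iota (f a'))
    have t2 := d_tri b (mul b (iota y) (mul b (inv (iota x)) (iota a)))
      (mul b (iota y) (mul b (inv (iota x)) (iota a'))) (iota (f a'))
    have t3 := d_comm b (mul b (iota y) (mul b (inv (iota x)) (iota a'))) (iota (f a'))
    have t4 := hf a
    have t5 := hf a'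
    have t6 := hiso a a'
    linarith
  have h2 : ∀ a a' : V, d b (iota a) (iota a') ≤ d b (iota (f a)) (iota (f a')) + 2 := by
    intro a a'
    have t1 := d_tri b (mul b (iota y) (mul b (inv (iota x)) (iota a))) (iota (f a))
      (mul b (iota y) (mul b (inv (iota x)) (iota a')))
    have t2 := d_tri b (iota (f a)) (iota (f a'))
      (mul b (iota y) (mul b (inv (iota x)) (iota a')))
    have t3 := d_comm b (mul b (iota y) (mul b (inv (iota x)) (iota a))) (iota (f a))
    have t4 := hf a
    have t5 := hf a'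
    have t6 := hiso a a'
    linarith
  refine ⟨f, ?_, ?_, ?_⟩
  · intro a a'
    have A1 := (hc a a').1
    have A2 := (hc a a').2
    have B1 := (hc (f a) (f a')).1
    have B2 := (hc (f a) (f a')).2
    have t1 := h1 a a'
    have t2 := h2 a a'
    have hd : (0 : ℝ) ≤ ((X b).dist a a' : ℝ) := Nat.cast_nonneg _
    constructor
    · have e1 : ((X b).dist a a' : ℝ) ≤ C₀ * (3 * ((X b).dist (f a) (f a') : ℝ) + 3) := by
        refine A2.trans ?_
        apply mul_le_mul_of_nonneg_left _ hC0.le
        linarith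
      have hdf : (0 : ℝ) ≤ ((X b).dist (f a) (f a') : ℝ) := Nat.cast_nonneg _
      have e2 : ((X b).dist a a' : ℝ) / (3 * C₀ + 3) ≤ ((X b).dist (f a) (f a') : ℝ) + 1 := by
        rw [div_le_iff₀ (by linarith)]
        nlinarith
      linarith
    · have e1 : ((X b).dist (f a) (f a') : ℝ) ≤ C₀ * (3 * ((X b).dist a a' : ℝ) + 3) := by
        refine B2.trans ?_
        apply mul_le_mul_of_nonneg_left _ hC0.le
        linarith
      nlinarith
  · intro z
    obtain ⟨a, ha⟩ := hN b (mul b (iota x) (mul b (inv (iota y)) (iota z)))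
    refine ⟨a, ?_⟩
    have e0 : mul b (iota y) (mul b (inv (iota x))
        (mul b (iota x) (mul b (inv (iota y)) (iota z)))) = iota z := by
      rw [inv_mul_cancel_left', mul_inv_cancel_left']
    have e1 : d b (mul b (iota y) (mul b (inv (iota x)) (iota a))) (iota z) ≤ 1 := by
      rw [← e0, d_mul_left, d_mul_left]
      exact ha
    have e2 := d_tri b (iota (f a)) (mul b (iota y) (mul b (inv (iota x)) (iota a))) (iota z)
    have e3 := hf a
    have e4 := (hc (f a) z).2
    have e5 : C₀ * (d b (iota (f a)) (iota z) + 1) ≤ C₀ * 3 :=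
      mul_le_mul_of_nonneg_left (by linarith) hC0.le
    linarith
  · have e3 := hf x
    rw [inv_mul', mul_zero'] at e3
    have e4 := (hc (f x) y).2
    have e5 : C₀ * (d b (iota (f x)) (iota y) + 1) ≤ C₀ * 3 :=
      mul_le_mul_of_nonneg_left (by linarith) hC0.le
    linarith

end Pool.Agent.W683.CT
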