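import Pool.Agent.W317.CT.Stm

set_option autoImplicit false

namespace Pool.Agent.W683.CT

open Pool.Agent.W317.CT

theorem walk_bound (b : Form) {v w : V} (p : (X b).Walk v w) :
    d b (iota v) (iota w) ≤ 3 * (p.length : ℝ) := by
  induction p with
  | nil => simp
  | cons h q ih =>
    rename_i u1 u2 u3
    have h1 := h.2.1
    have h2 := d_tri b (iota u1) (iota u2) (iota u3)
    rw [SimpleGraph.Walk.length_cons]
    push_cast
    linarith

theorem near_adj (b : Form) {v w : V} (h : d b (iota v) (iota w) ≤ 3) :
    v = w ∨ (X b).Adj v w := by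
  by_cases hv : v = w
  · exact Or.inl hv
  · exact Or.inr ⟨hv, h, by rw [d_comm]; exact h⟩

theorem dist (hN : S_NET) : S_DIST := by
  intro b ⟨C, hC, hch⟩
  have key : ∀ (v w : V), ∃ p : (X b).Walk v w,
      (p.length : ℝ) ≤ (C + 1) * (d b (iota v) (iota w) + 1) := by
    intro v w
    obtain ⟨n, c, c0, cn, hst, hn⟩ := hch (iota v) (iota w)
    have lem : ∀ i, i ≤ n → ∀ u, d b (iota u) (c i) ≤ 1 →
        ∃ p : (X b).Walk v u, p.length ≤ i + 1 := by
      intro i
      induction i with
      | zero =>
        intro _ u hu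
        rw [c0] at hu
        rcases near_adj b (v := v) (w := u) (by rw [d_comm]; linarith) with h | h
        · subst h
          exact ⟨SimpleGraph.Walk.nil, by simp⟩
        · exact ⟨SimpleGraph.Walk.cons h SimpleGraph.Walk.nil, by simp⟩
      | succ i ih =>
        intro hi u hu
        obtain ⟨u', hu'⟩ := hN b (c i)
        obtain ⟨p, hp⟩ := ih (by omega) u' hu'
        have h1 := hst i (by omega)
        have h2 := d_tri b (iota u') (c i) (iota u)
        have h3 := d_tri b (c i) (c (i + 1)) (iota u)
        have h4 := d_comm b (c (i + 1)) (iota u)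
        rcases near_adj b (v := u') (w := u) (by linarith) with h | h
        · subst h
          exact ⟨p, by omega⟩
        · refine ⟨p.append (SimpleGraph.Walk.cons h SimpleGraph.Walk.nil), ?_⟩
          rw [SimpleGraph.Walk.length_append]
          simp
          omega
    obtain ⟨p, hp⟩ := lem n le_rfl w (by rw [cn, d_self]; norm_num)
    refine ⟨p, ?_⟩
    have h1 : (p.length : ℝ) ≤ n + 1 := by exact_mod_cast hp
    have h2 := d_nonneg b (iota v) (iota w)
    nlinarith
  have hcon : (X b).Connected := by
    haveI : Nonempty V := ⟨0⟩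
    exact ⟨fun v w => ⟨(key v w).choose⟩⟩
  refine ⟨hcon, C + 1, by linarith, ?_⟩
  intro v w
  constructor
  · obtain ⟨p, hp⟩ := hcon.exists_walk_length_eq_dist v w
    rw [← hp]
    exact walk_bound b p
  · obtain ⟨p, hp⟩ := key v w
    refine le_trans ?_ hp
    exact_mod_cast SimpleGraph.dist_le p

end Pool.Agent.W683.CT
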